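import Pool.Agent.MP_30e119_nt.Final

/-! A sharper choice of the parameters, and the two halves of the Moebius sum. -/

set_option autoImplicit false

namespace Pool.Agent.MP_30e119_nt.Rate

open Finset Filter

theorem err_k {j k : ℕ} (hk : 12 ≤ k) (hP : 1000 * (k : ℝ) ^ 4 ≤ 2 ^ k) (hj1 : 10 * k ≤ j)
    (hj2 : j ≤ 10 * k + 9) {κ t : ℝ} (hκ : 1 ≤ κ) (hκk : (κ ^ 100) ^ 2 = k) (ht1 : 2 ^ j ≤ t)
    (ht2 : t < 2 ^ (j + 1)) : |root.err t| ≤ 10 ^ 11 * t * (κ ^ 2 / (κ ^ 100) ^ 3) := by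
  have hk' : (12 : ℝ) ≤ k := by exact_mod_cast hk
  obtain ⟨P, hPdef⟩ : ∃ P : ℝ, P = 2 ^ k := ⟨_, rfl⟩
  rw [← hPdef] at hP
  have hκ0 : 0 < κ := by linarith
  have hlg : Real.log k ≤ 200 * κ := by
    rw [← hκk, Real.log_pow, Real.log_pow]
    have := Real.log_le_sub_one_of_pos hκ0
    push_cast
    linarith
  have hκ2 : 1 ≤ κ ^ 2 := one_le_pow₀ hκ
  obtain ⟨m, hm⟩ : ∃ m : ℝ, m = κ ^ 100 := ⟨_, rfl⟩
  have hm1 : 1 ≤ m := by rw [hm]; exact one_le_pow₀ hκ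
  rw [← hm] at hκk ⊢
  have hk1 : (k : ℝ) ≤ k ^ 2 := by nlinarith
  have hk2 : (k : ℝ) ^ 2 ≤ k ^ 3 := pow_le_pow_right₀ (by linarith) (by norm_num)
  have hk3 : (k : ℝ) ^ 3 ≤ k ^ 4 := pow_le_pow_right₀ (by linarith) (by norm_num)
  have hP1 : 1000 ≤ P := by linarith
  have hP2 : P ≤ P ^ 2 := by nlinarith
  have hP5 : P ^ 2 ≤ P ^ 5 := pow_le_pow_right₀ (by linarith) (by norm_num)
  have hP0 : 0 < P := by linarith
  have hQ : ((2 ^ (5 * k) : ℕ) : ℝ) = P ^ 5 := by rw [hPdef]; push_cast; ring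
  have hM₁ : ((2 ^ (2 * k) : ℕ) : ℝ) = P ^ 2 := by rw [hPdef]; push_cast; ring
  have ht0 : 0 ≤ t := le_trans (by positivity) ht1
  have htP : P ^ 10 ≤ t := by
    refine le_trans ?_ ht1
    rw [hPdef, ← pow_mul]
    exact pow_le_pow_right₀ (by norm_num) (by omega)
  have hlm2 : (m / 2) ^ 2 = k / 4 := by rw [← hκk]; ring
  have hexp := exp_le_two_pow k
  rw [← hPdef] at hexp
  have h := Node.param_est (M := 2 ^ (j + 1)) (M₁ := 2 ^ (2 * k)) (M₀ := 32 * k ^ 4)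
    (Q := 2 ^ (5 * k)) (G := 11 * k) (G₀ := 900 * κ) (η := 11 * k / P ^ 5) (lm := m / 2)
    (H := k ^ 2) (t := t) (Nat.pow_le_pow_right (by norm_num) (by omega))
    (by
      have : ((32 * k ^ 4 : ℕ) : ℝ) ≤ ((2 ^ (2 * k) : ℕ) : ℝ) := by
        rw [hM₁]; push_cast; linarith
      exact_mod_cast this)
    (by have : 1 ≤ k ^ 4 := Nat.one_le_pow _ _ (by omega); omega)
    (by positivity) (by rw [hQ])
    (by rw [div_le_iff₀ (by positivity)]; linarith) ht0 (by push_cast; exact ht2.le)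
    (by positivity)
    (fun a ha haM => by
      have ha' : (1 : ℝ) ≤ a := by exact_mod_cast ha
      have haM' : (a : ℝ) ≤ 2 ^ (j + 1) := by exact_mod_cast haM
      refine (gg_le_log ha').trans ?_
      have e1 : Real.log (3 * a) ≤ Real.log (2 ^ (j + 3)) :=
        Real.log_le_log (by positivity) (by rw [pow_add] at haM' ⊢; norm_num at haM' ⊢; linarith)
      rw [Real.log_pow] at e1
      have e2 := Real.log_two_lt_d9
      have e3 : ((j + 3 : ℕ) : ℝ) ≤ 11 * k := by exact_mod_cast (show j + 3 ≤ 11 * k by omega)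
      have e4 : ((j + 3 : ℕ) : ℝ) * Real.log 2 ≤ (11 * k) * 1 :=
        mul_le_mul e3 (by linarith) (Real.log_nonneg (by norm_num)) (by positivity)
      linarith)
    (fun a ha haM => by
      have ha' : (1 : ℝ) ≤ a := by exact_mod_cast ha
      have haM' : (a : ℝ) ≤ 32 * k ^ 4 := by exact_mod_cast haM
      refine (gg_le_log ha').trans ?_
      have e1 : Real.log (3 * a) ≤ Real.log (96 * k ^ 4) :=
        Real.log_le_log (by positivity) (by linarith)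
      rw [Real.log_mul (x := 96) (by norm_num) (by positivity), Real.log_pow] at e1
      have e2 := Real.log_le_sub_one_of_pos (show (0 : ℝ) < 96 by norm_num)
      push_cast at e1
      linarith)
    (by positivity)
    (by
      have e1 : 2 * (k : ℝ) ^ 2 * (11 * k / P ^ 5 + 2 * k ^ 2 / ((32 * k ^ 4 : ℕ) : ℝ)) =
          22 * k ^ 3 / P ^ 5 + 1 / 8 := by push_cast; field_simp; ring
      have e2 : 22 * (k : ℝ) ^ 3 / P ^ 5 ≤ 1 / 8 := by rw [div_le_iff₀ (by positivity)]; linarith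
      linarith)
    (by
      rw [hM₁, ← mul_div_assoc, div_lt_div_iff₀ (by positivity) (by positivity)]
      have e1 : 2 * (11 * (k : ℝ)) < 1 / 5 * P := by linarith
      calc 2 * (11 * (k : ℝ)) * (P ^ 2) ^ 2 < 1 / 5 * P * (P ^ 2) ^ 2 := by gcongr
        _ = _ := by ring)
    (by
      rw [hM₁, hlm2]
      have e1 : 11 * (k : ℝ) / P ^ 5 ≤ 11 * k / P ^ 2 := by gcongr
      have e2 : 4 * (11 * (k : ℝ) / P ^ 2 + 2 * k ^ 2 / P ^ 2 + 6 * k ^ 2 * (11 * k) / P ^ 2) =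
          (44 * k + 8 * k ^ 2 + 264 * k ^ 3) / P ^ 2 := by ring
      have e3 : (44 * (k : ℝ) + 8 * k ^ 2 + 264 * k ^ 3) / P ^ 2 ≤ 1 / P := by
        rw [div_le_div_iff₀ (by positivity) hP0]
        have : 44 * (k : ℝ) + 8 * k ^ 2 + 264 * k ^ 3 ≤ P := by linarith
        nlinarith
      have e4 : 1 / P ≤ Real.exp (-(k / 4)) := by
        rw [Real.exp_neg, one_div]
        refine inv_anti₀ (Real.exp_pos _) (le_trans (Real.exp_le_exp.2 ?_) hexp)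
        linarith
      linarith)
    (by
      rw [hM₁, hlm2, show 2 * ((k : ℝ) / 4) = k / 2 by ring]
      nlinarith)
  rw [hQ] at h
  refine h.trans ?_
  have e1 : 6 / (m / 2) ^ 3 * (900 * κ) ^ 2 * (5 / 2) = 97200000 * (κ ^ 2 / m ^ 3) := by
    field_simp; ring
  have e2 : 1 / (k : ℝ) ^ 2 ≤ κ ^ 2 / m ^ 3 := by
    rw [← hκk, ← pow_mul]
    exact div_le_div₀ (by positivity) hκ2 (by positivity) (pow_le_pow_right₀ hm1 (by norm_num))
  have e3 : (P ^ 5 + 2 * (11 * (k : ℝ)) + 6) * (11 * k) ^ 2 * (5 / 2) ≤ t * (1 / (k : ℝ) ^ 2) := by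
    rw [mul_one_div, le_div_iff₀ (by positivity)]
    have f1 : P ^ 5 + 2 * (11 * (k : ℝ)) + 6 ≤ 2 * P ^ 5 := by linarith
    calc (P ^ 5 + 2 * (11 * (k : ℝ)) + 6) * (11 * k) ^ 2 * (5 / 2) * k ^ 2
        ≤ 2 * P ^ 5 * (11 * k) ^ 2 * (5 / 2) * k ^ 2 := by gcongr
      _ = P ^ 5 * (605 * k ^ 4) := by ring
      _ ≤ P ^ 5 * P ^ 5 := by gcongr; linarith
      _ = P ^ 10 := by ring
      _ ≤ t := htP
  have e4 := mul_le_mul_of_nonneg_left e2 ht0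
  have e5 : 0 ≤ t * (κ ^ 2 / m ^ 3) := by positivity
  rw [e1]
  nlinarith

theorem err_le : ∀ᶠ j : ℕ in atTop, ∀ t : ℝ, 2 ^ j ≤ t → t < 2 ^ (j + 1) →
    |root.err t| ≤ 10 ^ 14 * (j : ℝ) ^ (-(1 + 49 / 100) : ℝ) * 2 ^ j := by
  obtain ⟨k₀, hk₀⟩ := eventually_atTop.1 master
  filter_upwards [eventually_ge_atTop (10 * k₀ + 120)] with j hj t ht1 ht2
  have hk : 12 ≤ j / 10 := by omega
  have hk' : (12 : ℝ) ≤ (j / 10 : ℕ) := by exact_mod_cast hk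
  have hk0 : (0 : ℝ) < (j / 10 : ℕ) := by linarith
  have hj0 : (0 : ℝ) < j := by exact_mod_cast (show 0 < j by omega)
  have h := err_k (j := j) hk (hk₀ _ (by omega)) (by omega) (by omega)
    (κ := ((j / 10 : ℕ) : ℝ) ^ (1 / 200 : ℝ)) (Real.one_le_rpow (by linarith) (by norm_num))
    (by rw [← pow_mul, ← Real.rpow_natCast, ← Real.rpow_mul hk0.le]; norm_num) ht1 ht2
  refine h.trans ?_
  have e1 : (((j / 10 : ℕ) : ℝ) ^ (1 / 200 : ℝ)) ^ 2 /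
      ((((j / 10 : ℕ) : ℝ) ^ (1 / 200 : ℝ)) ^ 100) ^ 3 =
      ((j / 10 : ℕ) : ℝ) ^ (-(1 + 49 / 100) : ℝ) := by
    rw [← pow_mul, ← Real.rpow_natCast, ← Real.rpow_natCast, ← Real.rpow_mul hk0.le,
      ← Real.rpow_mul hk0.le, ← Real.rpow_sub hk0]
    norm_num
  have e2 : (j : ℝ) / 20 ≤ (j / 10 : ℕ) := by
    have : (j : ℝ) ≤ 20 * (j / 10 : ℕ) := by exact_mod_cast (show j ≤ 20 * (j / 10) by omega)
    linarith
  have e3 : ((j / 10 : ℕ) : ℝ) ^ (-(1 + 49 / 100) : ℝ) ≤ 400 * (j : ℝ) ^ (-(1 + 49 / 100) : ℝ) := by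
    refine (Real.rpow_le_rpow_of_nonpos (by positivity) e2 (by norm_num)).trans ?_
    rw [Real.div_rpow hj0.le (by norm_num), Real.rpow_neg (x := 20) (by norm_num), div_inv_eq_mul,
      mul_comm]
    gcongr
    calc (20 : ℝ) ^ (1 + 49 / 100 : ℝ) ≤ 20 ^ (2 : ℝ) :=
          Real.rpow_le_rpow_of_exponent_le (by norm_num) (by norm_num)
      _ = 400 := by norm_num
  rw [e1]
  rw [pow_succ] at ht2
  calc _ ≤ 10 ^ 11 * (2 ^ j * 2) * (400 * (j : ℝ) ^ (-(1 + 49 / 100) : ℝ)) := by gcongr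
    _ ≤ _ := by
      have : 0 < (j : ℝ) ^ (-(1 + 49 / 100) : ℝ) * 2 ^ j := by positivity
      nlinarith

theorem near_le {G : ℝ → ℝ} (hG : ∀ s t, 0 ≤ s → s ≤ t → G s ≤ G t) (hG0 : ∀ t, 0 ≤ G t)
    {L B : ℝ} {K : ℕ} (hLK : 2 ^ K ≤ L) (hB : ∀ u, u ≤ ⌊L⌋₊ → |∑ d ∈ Ioc 0 u, mu d| ≤ B) :
    |∑ d ∈ Ioc ⌊L / 2 ^ K⌋₊ ⌊L⌋₊, mu d * G (L / d)| ≤ 2 * B * G (2 ^ K) := by
  have h2K : (1 : ℝ) ≤ 2 ^ K := one_le_pow₀ (by norm_num)
  have hL0 : 0 < L := by linarith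
  have B0 : 0 ≤ B := (abs_nonneg _).trans (hB 0 (Nat.zero_le _))
  have ha : 1 ≤ ⌊L / 2 ^ K⌋₊ :=
    (Nat.one_le_floor_iff _).2 ((one_le_div (by positivity)).2 hLK)
  have hab : ⌊L / 2 ^ K⌋₊ ≤ ⌊L⌋₊ := Nat.floor_le_floor (div_le_self hL0.le h2K)
  have h1 := abel_ineq mu (fun d => G (min (L / d) (2 ^ K))) _ _ hab _ hB (fun d hd => by
    refine hG _ _ (le_min (by positivity) (by positivity)) (min_le_min_right _ ?_)
    have : (0 : ℝ) < d := by exact_mod_cast (show 0 < d by omega)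
    push_cast
    gcongr
    linarith) fun d => hG0 _
  have h2 : ∑ d ∈ Ioc ⌊L / 2 ^ K⌋₊ ⌊L⌋₊, mu d * G (L / d) =
      ∑ d ∈ Ioc ⌊L / 2 ^ K⌋₊ ⌊L⌋₊, mu d * G (min (L / d) (2 ^ K)) := by
    refine sum_congr rfl fun d hd => ?_
    have h3 : L / 2 ^ K < d := (Nat.floor_lt (by positivity)).1 (mem_Ioc.1 hd).1
    have h4 : (0 : ℝ) < d := lt_trans (by positivity) h3
    rw [min_eq_left]
    rw [div_le_iff₀ h4, mul_comm]
    exact ((div_lt_iff₀ (by positivity)).1 h3).le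
  rw [h2]
  exact h1.trans (mul_le_mul_of_nonneg_left
    (hG _ _ (le_min (by positivity) (by positivity)) (min_le_right _ _)) (by linarith))

theorem far_le {H : ℝ → ℝ} {η : ℕ → ℝ} (hη0 : ∀ j, 0 ≤ η j) {K : ℕ} {L S : ℝ} (hL0 : 0 < L)
    (h2 : ∀ j, K ≤ j → ∀ t : ℝ, 2 ^ j ≤ t → t < 2 ^ (j + 1) → |H t| ≤ η j * 2 ^ j)
    (hS : ∀ J, ∑ i ∈ range J, η (i + K) ≤ S) :
    |∑ d ∈ Ioc 0 ⌊L / 2 ^ K⌋₊, mu d * H (L / d)| ≤ L * S := by
  have key : ∀ J : ℕ, ∑ d ∈ Ioc ⌊L / 2 ^ (J + K)⌋₊ ⌊L / 2 ^ K⌋₊, |H (L / d)| ≤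
      L * ∑ i ∈ range J, η (i + K) := by
    intro J
    induction J with
    | zero => simp
    | succ J ih =>
      have h3 : ⌊L / 2 ^ (J + 1 + K)⌋₊ ≤ ⌊L / 2 ^ (J + K)⌋₊ :=
        Nat.floor_le_floor (by gcongr <;> [norm_num; omega])
      have h4 : ⌊L / 2 ^ (J + K)⌋₊ ≤ ⌊L / 2 ^ K⌋₊ :=
        Nat.floor_le_floor (by gcongr <;> [norm_num; omega])
      rw [← sum_Ioc_consecutive _ h3 h4, sum_range_succ, mul_add]
      have h5 : ∀ d ∈ Ioc ⌊L / 2 ^ (J + 1 + K)⌋₊ ⌊L / 2 ^ (J + K)⌋₊,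
          |H (L / d)| ≤ η (J + K) * 2 ^ (J + K) := by
        intro d hd
        have h6 : L / 2 ^ (J + 1 + K) < d := (Nat.floor_lt (by positivity)).1 (mem_Ioc.1 hd).1
        have h7 : (d : ℝ) ≤ L / 2 ^ (J + K) := (Nat.le_floor_iff (by positivity)).1 (mem_Ioc.1 hd).2
        have h8 : (0 : ℝ) < d := lt_trans (by positivity) h6
        refine h2 _ (by omega) _ ?_ ?_
        · rw [le_div_iff₀ h8, mul_comm]
          exact (le_div_iff₀ (by positivity)).1 h7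
        · rw [div_lt_iff₀ h8, mul_comm, show J + K + 1 = J + 1 + K by ring]
          exact (div_lt_iff₀ (by positivity)).1 h6
      have h9 := sum_le_card_nsmul _ _ _ h5
      rw [Nat.card_Ioc, nsmul_eq_mul] at h9
      have h10 : ((⌊L / 2 ^ (J + K)⌋₊ - ⌊L / 2 ^ (J + 1 + K)⌋₊ : ℕ) : ℝ) ≤ L / 2 ^ (J + K) :=
        (Nat.cast_le.2 (Nat.sub_le _ _)).trans (Nat.floor_le (by positivity))
      have h11 : ((⌊L / 2 ^ (J + K)⌋₊ - ⌊L / 2 ^ (J + 1 + K)⌋₊ : ℕ) : ℝ) *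
          (η (J + K) * 2 ^ (J + K)) ≤ L / 2 ^ (J + K) * (η (J + K) * 2 ^ (J + K)) :=
        mul_le_mul_of_nonneg_right h10 (mul_nonneg (hη0 _) (by positivity))
      have h12 : L / 2 ^ (J + K) * (η (J + K) * 2 ^ (J + K)) = L * η (J + K) := by field_simp
      linarith
  obtain ⟨J, hJ⟩ := pow_unbounded_of_one_lt L (show (1 : ℝ) < 2 by norm_num)
  have hz : ⌊L / 2 ^ (J + K)⌋₊ = 0 := by
    rw [Nat.floor_eq_zero, div_lt_one (by positivity)]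
    exact hJ.trans_le (pow_le_pow_right₀ (by norm_num) (by omega))
  have h3 := key J
  rw [hz] at h3
  refine (abs_sum_le_sum_abs _ _).trans ((sum_le_sum fun d _ => ?_).trans
    (h3.trans (mul_le_mul_of_nonneg_left (hS J) hL0.le)))
  rw [abs_mul]
  exact mul_le_of_le_one_left (abs_nonneg _) (abs_mu_le d)

end Pool.Agent.MP_30e119_nt.Rate
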