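import Pool.Agent.MP_30e119_nt.Rate.Mert
import Pool.Agent.MP_30e119_nt.Rate.Err

/-! The count of Markov triples with a rate. -/

set_option autoImplicit false

namespace Pool.Agent.MP_30e119_nt.Rate

open Finset Filter Asymptotics

theorem split {β : ℝ} (hβ : β = CC - (1 / (2 * root.A) + 1 / (2 * root.B))) :
    ∀ᶠ j : ℕ in atTop, ∀ t : ℝ, 2 ^ j ≤ t → t < 2 ^ (j + 1) →
      |root.cnt t + -CC * (t ^ 2 * Z t) + -β * (⌊t⌋₊ : ℝ)| ≤
        (10 ^ 14 + 2 * |CC| + |β|) * (j : ℝ) ^ (-(1 + 49 / 100) : ℝ) * 2 ^ j := by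
  filter_upwards [err_le, master, eventually_ge_atTop 1] with j hj hm hj1 t ht1 ht2
  have j1 : (1 : ℝ) ≤ j := by exact_mod_cast hj1
  have h2 : (2 : ℝ) ≤ t := le_trans (by
    calc (2 : ℝ) = 2 ^ 1 := by norm_num
      _ ≤ 2 ^ j := pow_le_pow_right₀ (by norm_num) hj1) ht1
  have e0 : 1 ≤ (j : ℝ) ^ (-(1 + 49 / 100) : ℝ) * 2 ^ j := by
    rw [Real.rpow_neg (by linarith), inv_mul_eq_div, one_le_div (by positivity)]
    have : (j : ℝ) ^ (1 + 49 / 100 : ℝ) ≤ (j : ℝ) ^ 4 := by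
      exact_mod_cast Real.rpow_le_rpow_of_exponent_le j1 (by norm_num : (1 + 49 / 100 : ℝ) ≤ 4)
    have : (0 : ℝ) ≤ (j : ℝ) ^ 4 := by positivity
    linarith
  have e1 := hj t ht1 ht2
  have e2 := Z_est h2
  have e3 : |t - (⌊t⌋₊ : ℝ)| ≤ 1 := by
    have := Nat.floor_le (show 0 ≤ t by linarith)
    have := Nat.lt_floor_add_one t
    rw [abs_le]; constructor <;> linarith
  have e4 : root.cnt t + -CC * (t ^ 2 * Z t) + -β * (⌊t⌋₊ : ℝ) =
      root.err t + -CC * (t ^ 2 * Z t - Real.pi ^ 2 / 6 * t ^ 2 + t) + β * (t - ⌊t⌋₊) := by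
    have e5 : root.ar = CC * (Real.pi ^ 2 / 6) := by
      unfold CC; have := Real.pi_pos; field_simp
    unfold Node.err
    rw [e5, hβ]
    ring
  rw [e4]
  refine (abs_add_three _ _ _).trans ?_
  rw [abs_mul, abs_mul, abs_neg]
  have e6 := mul_le_mul_of_nonneg_left e2 (abs_nonneg CC)
  have e7 := mul_le_mul_of_nonneg_left e3 (abs_nonneg β)
  have e8 := mul_le_mul_of_nonneg_left e0 (show 0 ≤ 2 * |CC| + |β| by positivity)
  linarith

theorem near {β L B : ℝ} {K : ℕ} (hK : 1 ≤ K) (hLK : 2 ^ K ≤ L)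
    (hB : ∀ u, u ≤ ⌊L⌋₊ → |∑ d ∈ Ioc 0 u, mu d| ≤ B) (he : |root.err (2 ^ K)| ≤ 10 ^ 14 * 2 ^ K) :
    |∑ d ∈ Ioc ⌊L / 2 ^ K⌋₊ ⌊L⌋₊, mu d *
      (root.cnt (L / d) + -CC * ((L / d) ^ 2 * Z (L / d)) + -β * (⌊L / d⌋₊ : ℝ))| ≤
      2 * B * ((10 ^ 14 + |root.ar| + 2 * |CC| + |β|) * (2 ^ K) ^ 2) := by
  have B0 : 0 ≤ B := (abs_nonneg _).trans (hB 0 (Nat.zero_le _))
  have n1 := near_le cnt_mono (fun t => Node.tot_nonneg (fun _ => Nat.cast_nonneg _) _) hLK hB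
  have n2 := near_le (G := fun t => t ^ 2 * Z t)
    (fun s t hs h => mul_le_mul (by gcongr) (Z_mono h) (Z_nonneg _) (by positivity))
    (fun t => mul_nonneg (by positivity) (Z_nonneg _)) hLK hB
  have n3 := near_le (G := fun t => (⌊t⌋₊ : ℝ))
    (fun s t _ h => Nat.cast_le.2 (Nat.floor_le_floor h)) (fun t => Nat.cast_nonneg _) hLK hB
  have h2 : (2 : ℝ) ≤ 2 ^ K := by
    calc (2 : ℝ) = 2 ^ 1 := by norm_num
      _ ≤ 2 ^ K := pow_le_pow_right₀ (by norm_num) hK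
  generalize (2 : ℝ) ^ K = t at *
  have t1 : t ≤ t ^ 2 := by nlinarith
  have c1 : root.cnt t ≤ (10 ^ 14 + |root.ar|) * t ^ 2 := by
    have a := (abs_le.1 he).2
    have a1 := root.A_pos
    have a2 := root.B_pos
    have a3 : 0 ≤ t / (2 * root.A) := by positivity
    have a4 : 0 ≤ t / (2 * root.B) := by positivity
    have a5 := mul_le_mul_of_nonneg_right (le_abs_self root.ar) (sq_nonneg t)
    unfold Node.err at a
    linarith
  have c2 : t ^ 2 * Z t ≤ 2 * t ^ 2 := by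
    have a := (abs_le.1 (Z_est h2)).2
    have a1 : Real.pi ^ 2 / 6 ≤ 2 := by nlinarith [Real.pi_lt_d2, Real.pi_pos]
    nlinarith
  have c3 : (⌊t⌋₊ : ℝ) ≤ t ^ 2 := (Nat.floor_le (by linarith)).trans t1
  have e4 : ∑ d ∈ Ioc ⌊L / t⌋₊ ⌊L⌋₊, mu d *
      (root.cnt (L / d) + -CC * ((L / d) ^ 2 * Z (L / d)) + -β * (⌊L / d⌋₊ : ℝ)) =
      ∑ d ∈ Ioc ⌊L / t⌋₊ ⌊L⌋₊, mu d * root.cnt (L / d) +
        -CC * ∑ d ∈ Ioc ⌊L / t⌋₊ ⌊L⌋₊, mu d * ((L / d) ^ 2 * Z (L / d)) +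
        -β * ∑ d ∈ Ioc ⌊L / t⌋₊ ⌊L⌋₊, mu d * (⌊L / d⌋₊ : ℝ) := by
    rw [mul_sum, mul_sum, ← sum_add_distrib, ← sum_add_distrib]
    exact sum_congr rfl fun d _ => by ring
  rw [e4]
  refine (abs_add_three _ _ _).trans ?_
  rw [abs_mul, abs_mul, abs_neg, abs_neg]
  calc _ ≤ 2 * B * ((10 ^ 14 + |root.ar|) * t ^ 2) + |CC| * (2 * B * (2 * t ^ 2)) +
        |β| * (2 * B * t ^ 2) := by
        gcongr
        · exact n1.trans (by gcongr)
        · exact n2.trans (by gcongr)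
        · exact n3.trans (by gcongr)
    _ = _ := by ring

theorem P_rate : ∃ D : ℝ, 0 ≤ D ∧ ∀ᶠ L : ℝ in atTop,
    |P L - CC * L ^ 2| ≤ D * (L / Real.log L ^ (1 / 4 : ℝ)) := by
  obtain ⟨β, hβ⟩ : ∃ β, β = CC - (1 / (2 * root.A) + 1 / (2 * root.B)) := ⟨_, rfl⟩
  obtain ⟨j₀, hj⟩ := eventually_atTop.1 ((split hβ).and err_le)
  obtain ⟨D₁, hD₁⟩ : ∃ D : ℝ, D = 10 ^ 14 + 2 * |CC| + |β| := ⟨_, rfl⟩
  obtain ⟨D₂, hD₂⟩ : ∃ D : ℝ, D = 10 ^ 14 + |root.ar| + 2 * |CC| + |β| := ⟨_, rfl⟩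
  have D1 : 0 ≤ D₁ := by rw [hD₁]; positivity
  have D2 : 0 ≤ D₂ := by rw [hD₂]; positivity
  refine ⟨300 * D₁ + 16160 * D₂ + |β|, by positivity, ?_⟩
  filter_upwards [mert, lv_top.eventually_ge_atTop (60 * j₀ + 240),
    Real.tendsto_log_atTop.eventually_ge_atTop 1, eventually_ge_atTop 1] with L hm l1 l2 hL
  have L0 : 0 < L := by linarith
  have j0 : (0 : ℝ) ≤ j₀ := Nat.cast_nonneg _
  set r := Real.log L ^ (1 / 4 : ℝ) with hr
  have r0 : 0 < r := by positivity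
  have r1 : r ≤ lv L := Real.rpow_le_rpow_of_exponent_le l2 (by norm_num)
  have r2 : lv L ≤ Real.log L := by
    simpa [lv] using Real.rpow_le_rpow_of_exponent_le l2 (by norm_num : (20 / 39 : ℝ) ≤ 1)
  have r3 : lv L ^ (-(49 / 100) : ℝ) ≤ 1 / r := by
    rw [lv, ← Real.rpow_mul (by linarith), hr, one_div, ← Real.rpow_neg (by linarith)]
    exact Real.rpow_le_rpow_of_exponent_le l2 (by norm_num)
  have r4 := Real.log_le_sub_one_of_pos L0
  set K := ⌊lv L / 60⌋₊ with hK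
  have k1 : (K : ℝ) ≤ lv L / 60 := Nat.floor_le (by linarith)
  have k2 : lv L / 60 < K + 1 := Nat.lt_floor_add_one _
  have k3 : j₀ + 1 ≤ K := by exact_mod_cast (show (j₀ : ℝ) + 1 ≤ K by linarith)
  have k4 : (2 : ℝ) ^ K ≤ Real.exp (lv L / 80) := by
    rw [← Real.exp_log (show (0 : ℝ) < 2 by norm_num), ← Real.exp_nat_mul, Real.exp_le_exp]
    nlinarith [Real.log_two_lt_d9]
  have k5 : (2 : ℝ) ^ K ≤ L := by
    refine k4.trans ?_
    rw [← Real.le_log_iff_exp_le L0]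
    linarith
  have K1 : (1 : ℝ) ≤ K := by exact_mod_cast (show 1 ≤ K by omega)
  have n := near (β := β) (by omega) k5 hm (((hj K (by omega)).2 _ le_rfl
    (pow_lt_pow_right₀ (by norm_num) (by omega))).trans (by
      have := Real.rpow_le_one_of_one_le_of_nonpos K1 (by norm_num : (-(1 + 49 / 100) : ℝ) ≤ 0)
      gcongr
      linarith))
  have f := far_le (H := fun t => root.cnt t + -CC * (t ^ 2 * Z t) + -β * (⌊t⌋₊ : ℝ))
    (η := fun j => D₁ * (j : ℝ) ^ (-(1 + 49 / 100) : ℝ)) (S := 300 * D₁ * (1 / r)) (K := K)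
    (fun j => by positivity) L0 (fun j h => hD₁ ▸ (hj j (by omega)).1) fun J => by
      have a := Pool.Agent.MP_39a890_nt.SW.tail_sum (x0 := K - 1) (x := 49 / 100) (by linarith)
        (by norm_num) J
      have b : ((K : ℝ) - 1) ^ (-(49 / 100) : ℝ) ≤ 120 * (1 / r) := by
        refine (Real.rpow_le_rpow_of_nonpos (x := lv L / 120) (by linarith) (by linarith)
          (by norm_num)).trans ?_
        rw [Real.div_rpow (by linarith) (by norm_num), Real.rpow_neg (x := 120) (by norm_num),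
          div_inv_eq_mul, mul_comm]
        refine mul_le_mul ?_ r3 (Real.rpow_nonneg (by linarith) _) (by norm_num)
        simpa using Real.rpow_le_rpow_of_exponent_le (by norm_num : (1 : ℝ) ≤ 120)
          (by norm_num : (49 / 100 : ℝ) ≤ 1)
      have c : 0 < 1 / r := by positivity
      rw [← mul_sum, mul_comm 300, mul_assoc]
      refine mul_le_mul_of_nonneg_left (le_of_eq_of_le (sum_congr rfl fun i _ => ?_)
        (a.trans (by linarith))) D1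
      congr 1
      push_cast
      ring
  rw [← hD₂] at n
  have g : Real.exp (-(lv L / 20)) * (2 ^ K) ^ 2 ≤ 40 * (1 / r) := by
    calc _ ≤ Real.exp (-(lv L / 20)) * Real.exp (lv L / 80) ^ 2 := by gcongr
      _ = (Real.exp (lv L / 40))⁻¹ := by
        rw [← Real.exp_nat_mul, ← Real.exp_add, ← Real.exp_neg]; congr 1; push_cast; ring
      _ ≤ (r / 40)⁻¹ := inv_anti₀ (by positivity) (by linarith [Real.add_one_le_exp (lv L / 40)])
      _ = _ := by field_simp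
  have hab : ⌊L / 2 ^ K⌋₊ ≤ ⌊L⌋₊ :=
    Nat.floor_le_floor (div_le_self L0.le (one_le_pow₀ (by norm_num)))
  have e1 := P_eq L0.le
  have e2 := moeb_sq L hL
  have e3 := moeb_floor L _ le_rfl
  rw [if_pos hL] at e3
  have e4 : ∑ d ∈ Ioc 0 ⌊L⌋₊, mu d *
      (root.cnt (L / d) + -CC * ((L / d) ^ 2 * Z (L / d)) + -β * (⌊L / d⌋₊ : ℝ)) =
      ∑ d ∈ Ioc 0 ⌊L⌋₊, mu d * root.cnt (L / d) +
        -CC * ∑ d ∈ Ioc 0 ⌊L⌋₊, mu d * ((L / d) ^ 2 * Z (L / d)) +
        -β * ∑ d ∈ Ioc 0 ⌊L⌋₊, mu d * (⌊L / d⌋₊ : ℝ) := by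
    rw [mul_sum, mul_sum, ← sum_add_distrib, ← sum_add_distrib]
    exact sum_congr rfl fun d _ => by ring
  rw [e1, e2, e3, ← sum_Ioc_consecutive _ (Nat.zero_le _) hab] at e4
  have e5 : |β| * 1 ≤ |β| * (L * (1 / r)) := by
    refine mul_le_mul_of_nonneg_left ?_ (abs_nonneg _)
    rw [mul_one_div, one_le_div r0]
    linarith
  have e6 := mul_le_mul_of_nonneg_left g (show 0 ≤ 404 * L * D₂ by positivity)
  have e7 := abs_le.1 n
  have e8 := abs_le.1 f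
  rw [div_eq_mul_one_div L, abs_le]
  constructor <;> linarith [le_abs_self β, neg_abs_le β]

theorem main (N : ℝ → ℝ) (hN : ∀ n : ℝ, N n =
      (((Finset.Icc 1 ⌊n⌋₊ ×ˢ Finset.Icc 1 ⌊n⌋₊ ×ˢ Finset.Icc 1 ⌊n⌋₊).filter
        (fun t : ℕ × ℕ × ℕ => t.1 ≤ t.2.1 ∧ t.2.1 ≤ t.2.2 ∧
          t.1 ^ 2 + t.2.1 ^ 2 + t.2.2 ^ 2 = 3 * t.1 * t.2.1 * t.2.2)).card : ℝ)) :
    ∃ D n₀ : ℝ, ∀ n : ℝ, n₀ ≤ n → |N n - CC * (Real.log (3 * n)) ^ 2| ≤
      D * (Real.log n / Real.log (Real.log n) ^ (1 / 4 : ℝ)) := by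
  have hlog : Tendsto Real.log atTop atTop := Real.tendsto_log_atTop
  have hg : Tendsto gg atTop atTop := tendsto_atTop_mono' _
    (by filter_upwards [eventually_ge_atTop (1 : ℝ)] with n hn using log_le_gg hn) hlog
  obtain ⟨D, D0, h⟩ := P_rate
  refine ⟨2 * D + 2 + 4 * |CC|, eventually_atTop.1 ?_⟩
  filter_upwards [hg.eventually h, eventually_ge_atTop (3 : ℝ),
    (hlog.comp hlog).eventually_ge_atTop 1, hlog.eventually_ge_atTop 1] with n h1 hn l1 l2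
  simp only [Function.comp_apply] at l1
  have n1 : (1 : ℝ) ≤ n := by linarith
  have h3 : Real.log (3 * n) ≤ 2 * Real.log n := by
    rw [Real.log_mul (by norm_num) (by linarith)]
    linarith [Real.log_le_log (by norm_num) hn]
  have e1 := log_sub_gg n1
  have e2 := gg_le_log n1
  have e3 := gg_pos n1
  have e4 : P (gg n) = root.tot fun m => if m.c ≤ ⌊n⌋₊ then 1 else 0 := by
    unfold P
    congr 1
    funext m
    simp only [Node.G, gg_le_iff m.rc1 n1, Nat.le_floor_iff (show 0 ≤ n by linarith)]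
  have a1 : gg n / Real.log (gg n) ^ (1 / 4 : ℝ) ≤
      2 * Real.log n / Real.log (Real.log n) ^ (1 / 4 : ℝ) := by
    have := Real.log_le_log (by linarith) (log_le_gg n1)
    gcongr
    linarith
  have a2 : 1 ≤ Real.log n / Real.log (Real.log n) ^ (1 / 4 : ℝ) := by
    rw [one_le_div (by positivity)]
    have b := Real.rpow_le_rpow_of_exponent_le l1 (by norm_num : (1 / 4 : ℝ) ≤ 1)
    rw [Real.rpow_one] at b
    linarith [Real.log_le_sub_one_of_pos (show 0 < Real.log n by linarith)]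
  have a3 : |Real.log (3 * n) ^ 2 - gg n ^ 2| ≤ 4 := by
    rw [sq_sub_sq, abs_of_nonneg (mul_nonneg (by linarith) (by linarith))]
    calc (Real.log (3 * n) + gg n) * (Real.log (3 * n) - gg n)
        ≤ (4 * n) * (1 / n) := mul_le_mul
          (by linarith [Real.log_le_sub_one_of_pos (show 0 < n by linarith)]) e1 (by linarith)
          (by linarith)
      _ = 4 := by field_simp
  have a4 := mul_le_mul_of_nonneg_left a3 (abs_nonneg CC)
  rw [← abs_mul] at a4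
  have a5 := mul_le_mul_of_nonneg_left a1 D0
  have a6 := mul_le_mul_of_nonneg_left a2 (show 0 ≤ 2 + 4 * |CC| by positivity)
  have a7 := abs_le.1 a4
  have a8 := abs_le.1 h1
  rw [mul_div_assoc] at a5
  rw [hN, card_eq _ (Nat.le_floor (by push_cast; linarith)), ← e4, abs_le]
  constructor <;> linarith

end Pool.Agent.MP_30e119_nt.Rate
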