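import Mathlib.Analysis.ODE.Gronwall
import Pool.Agent.MP_678834_nt.PW.Top
import Pool.Agent.MP_30e119_nt.Final

/-! Sums of the Moebius function with a saving of exponential type. -/

set_option autoImplicit false

noncomputable section

namespace Pool.Agent.MP_30e119_nt.Rate

open Finset Filter Complex MeasureTheory ArithmeticFunction
open Pool.Agent.MP_39a890_nt.SW

/-- the reciprocal of zeta, continued to the point one -/
def H (s : ℂ) : ℂ := (s - 1) / riemannZeta₁ s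

/-- the Moebius function with complex values -/
def mc (n : ℕ) : ℂ := ((moebius n : ℤ) : ℂ)

theorem summ {s : ℂ} (hs : 1 < s.re) : LSeriesSummable mc s :=
  LSeriesSummable_moebius_iff.2 hs

theorem H_eq {s : ℂ} (hs : 1 < s.re) : LSeries mc s = H s := by
  have h1 : s ≠ 1 := fun h => by simp [h] at hs
  have h2 := LSeries_zeta_mul_Lseries_moebius hs
  rw [LSeries_zeta_eq_riemannZeta hs, riemannZeta_eq_inv_sub_mul h1] at h2
  rw [H, ← inv_div, div_eq_inv_mul]
  exact eq_inv_of_mul_eq_one_right h2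

theorem H_right {s : ℂ} {x : ℝ} (hx : 0 < x) (hs : s.re = 1 + x) : ‖H s‖ ≤ 1 + 1 / x := by
  have h1 : 1 < s.re := by linarith
  rw [← H_eq h1, ← (hasSum_w (summ h1)).tsum_eq]
  refine (tsum_of_norm_bounded (summable_w hx).hasSum fun k => ?_).trans
    ((summable_w hx).tsum_le_of_sum_range_le (full_sum hx))
  rw [norm_mul, norm_w, hs]
  refine mul_le_of_le_one_left (by positivity) ?_
  rw [mc, Complex.norm_intCast]
  exact_mod_cast abs_moebius_le_one

theorem region : ∀ᶠ L : ℝ in atTop, ∀ s : ℂ, |s.re - 1| ≤ L ^ (-(19 / 20) : ℝ) →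
    |s.im| ≤ 2 * Real.exp L →
    riemannZeta₁ s ≠ 0 ∧ ‖deriv riemannZeta₁ s / riemannZeta₁ s‖ ≤ L := by
  filter_upwards [Pool.Agent.MP_678834_nt.PW.logDerivBound 0] with L hL s h1 h2
  have e : Pool.Agent.MP_678834_nt.PW.EE (1 : DirichletCharacter ℂ 1) = riemannZeta₁ := by
    funext z
    simp [Pool.Agent.MP_678834_nt.PW.EE]
  have := hL 1 1 s (by simp) h1 h2
  rwa [e] at this

theorem H_le {L w T : ℝ} (hw : 0 < w) (hL : 0 ≤ L)
    (h : ∀ s : ℂ, |s.re - 1| ≤ w → |s.im| ≤ T →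
      riemannZeta₁ s ≠ 0 ∧ ‖deriv riemannZeta₁ s / riemannZeta₁ s‖ ≤ L)
    {s : ℂ} (h1 : |s.re - 1| ≤ w) (h2 : |s.im| ≤ T) :
    ‖H s‖ ≤ (1 + 1 / w) * Real.exp (L * (2 * w)) := by
  obtain ⟨a1, a2⟩ := abs_le.1 h1
  set z : ℂ := (1 + w : ℝ) + s.im * I with hz
  have zr : z.re = 1 + w := by simp [hz]
  have zi : z.im = s.im := by simp [hz]
  have hin : ∀ u ∈ Set.Icc (0 : ℝ) (2 * w), riemannZeta₁ (z - u) ≠ 0 ∧
      ‖deriv riemannZeta₁ (z - u) / riemannZeta₁ (z - u)‖ ≤ L := fun u hu =>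
    h _ (by
      rw [sub_re, zr, ofReal_re, abs_le]
      constructor <;> linarith [hu.1, hu.2]) (by simpa [zi] using h2)
  have hd : ∀ u ∈ Set.Icc (0 : ℝ) (2 * w), HasDerivAt (fun u : ℝ => (riemannZeta₁ (z - u))⁻¹)
      (deriv riemannZeta₁ (z - u) / riemannZeta₁ (z - u) * (riemannZeta₁ (z - u))⁻¹) u := by
    intro u hu
    have d1 : HasDerivAt (fun v : ℂ => riemannZeta₁ (z - v))
        (deriv riemannZeta₁ (z - u) * (-1)) u :=
      (differentiable_riemannZeta₁ (z - u)).hasDerivAt.comp (u : ℂ)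
        ((hasDerivAt_id (u : ℂ)).const_sub z)
    refine (d1.inv (hin u hu).1).comp_ofReal.congr_deriv ?_
    have := (hin u hu).1
    field_simp
  have g := norm_le_gronwallBound_of_norm_deriv_right_le (a := 0) (b := 2 * w) (K := L) (ε := 0)
    (δ := ‖(riemannZeta₁ z)⁻¹‖) (fun u hu => (hd u hu).continuousAt.continuousWithinAt)
    (fun u hu => (hd u (Set.Ico_subset_Icc_self hu)).hasDerivWithinAt) (by simp)
    (fun u hu => by
      rw [norm_mul, add_zero]
      exact mul_le_mul_of_nonneg_right (hin u (Set.Ico_subset_Icc_self hu)).2 (norm_nonneg _))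
    (1 + w - s.re) ⟨by linarith, by linarith⟩
  have e : z - ((1 + w - s.re : ℝ) : ℂ) = s := by
    apply Complex.ext <;> simp [hz]
  rw [gronwallBound_ε0, e, sub_zero] at g
  have n1 : ‖s - 1‖ ≤ ‖z - 1‖ := by
    refine le_of_pow_le_pow_left₀ two_ne_zero (norm_nonneg _) ?_
    simp only [Complex.sq_norm, normSq_apply, sub_re, sub_im, one_re, one_im, zr, zi]
    nlinarith
  have n2 := H_right hw zr
  rw [H, div_eq_mul_inv, norm_mul] at n2 ⊢
  calc _ ≤ ‖z - 1‖ * (‖(riemannZeta₁ z)⁻¹‖ * Real.exp (L * (2 * w))) := by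
        refine mul_le_mul n1 (g.trans ?_) (norm_nonneg _) (norm_nonneg _)
        gcongr
        linarith
    _ ≤ _ := by rw [← mul_assoc]; gcongr

theorem riesz {w T K y : ℝ} (hw : w ≤ 1 / 2) (hT : 0 < T) (hy : 1 < y)
    (hl : 1 / Real.log y ≤ w)
    (h : ∀ s : ℂ, |s.re - 1| ≤ w → |s.im| ≤ T → riemannZeta₁ s ≠ 0 ∧ ‖H s‖ ≤ K) :
    ‖∑ n ∈ Ioc 0 ⌊y⌋₊, mc n * ((y : ℂ) - n)‖ ≤
      y * (2 * (K * (3 * y / T ^ 2)) + K * (y * Real.exp (-(Real.log y * w)) / (1 / 4)) * (2 * T) +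
        2 * ((1 + Real.log y) * (3 * y)) / T) := by
  set L := Real.log y with hLdef
  have hy0 : 0 < y := by linarith
  have hL0 : 0 < L := Real.log_pos hy
  have e3 : 0 < 1 / L := by positivity
  set b : ℝ := 1 + 1 / L with hb
  have hd : ∀ s, riemannZeta₁ s ≠ 0 → DifferentiableAt ℂ H s := fun s hs =>
    DifferentiableAt.div (by fun_prop) (differentiable_riemannZeta₁ s) hs
  have hb1 : ∀ t : ℝ, ((b : ℂ) + t * I).re = b := fun t => by simp
  have hne : ∀ t : ℝ, riemannZeta₁ (b + t * I) ≠ 0 := fun t h0 => by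
    have k1 : (b : ℂ) + t * I ≠ 1 := fun k => by
      have := hb1 t
      rw [k, one_re] at this
      linarith
    refine riemannZeta_ne_zero_of_one_le_re (s := b + t * I) (by rw [hb1]; linarith) ?_
    rw [riemannZeta_eq_inv_sub_mul k1, h0, mul_zero]
  have hyb : y ^ b ≤ 3 * y := by
    rw [hb, Real.rpow_add hy0, Real.rpow_one, mul_comm]
    gcongr
    exact (rpow_le_exp hy0 le_rfl le_rfl hL0 zero_le_one).trans
      (Real.exp_one_lt_d9.le.trans (by norm_num))
  have hya : y ^ (1 - w) = y * Real.exp (-(L * w)) := by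
    rw [sub_eq_add_neg, Real.rpow_add hy0, Real.rpow_one, Real.rpow_def_of_pos hy0]
    congr 2
    ring
  have p1 := perron (a := mc) hy0 (b := b) (by linarith) (summ (by simp only [ofReal_re]; linarith))
  have p2 := truncate (F := fun t : ℝ => H (b + t * I) * ker y (b + t * I))
    (K := (1 + L) * (3 * y)) (by positivity) hT (continuous_iff_continuousAt.2 fun t =>
      ContinuousAt.comp (g := fun s => H s * ker y s) (f := fun t : ℝ => (b : ℂ) + t * I)
        ((hd _ (hne t)).mul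
          (differentiableAt_ker hy0 (by rw [hb1]; linarith))).continuousAt (by fun_prop))
    fun t => by
      rw [norm_mul, mul_assoc (1 + L)]
      refine mul_le_mul ((H_right e3 (hb1 t)).trans_eq (by rw [one_div_one_div]))
        ((norm_ker_line hy0 (by linarith) t).trans ?_) (norm_nonneg _) (by positivity)
      gcongr
  have p3 := shift (H := H) (a := 1 - w) (b := b) (K := K) hy.le (by linarith)
    (by linarith) (by linarith) hT fun s k1 k2 k3 => by
      have := h s (abs_le.2 ⟨by linarith, by linarith⟩) k3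
      exact ⟨hd s this.1, this.2⟩
  have K0 : 0 ≤ K := (norm_nonneg _).trans (h 1 (by simp; linarith) (by simpa using hT.le)).2
  simp only [fun t : ℝ => H_eq (s := b + t * I) (by rw [hb1]; linarith)] at p1
  have p4 := congrArg norm p1
  rw [norm_mul, norm_mul, norm_real, Real.norm_of_nonneg hy0.le] at p4
  have p5 : 1 ≤ ‖(2 * Real.pi : ℂ)‖ := by
    rw [norm_mul, norm_real, Real.norm_of_nonneg Real.pi_pos.le, Complex.norm_two]
    linarith [Real.pi_gt_three]
  rw [hya] at p3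
  have p6 : y ^ b / T ^ 2 ≤ 3 * y / T ^ 2 := by gcongr
  have p7 := mul_le_mul_of_nonneg_left p6 K0
  refine (le_mul_of_one_le_left (norm_nonneg _) p5).trans (le_of_eq_of_le p4.symm ?_)
  gcongr
  linarith

theorem small : ∀ᶠ L : ℝ in atTop, 4 ≤ L ∧
    (1 + L) * Real.exp (2 * L ^ (1 / 20 : ℝ)) ≤ Real.exp (L / 40) ∧
    1 + 2 * L ^ 2 ≤ Real.exp (L / 40) := by
  have h1 : ∀ᶠ L : ℝ in atTop, 3 * L ^ 2 ≤ Real.exp (L / 80) := by
    have := ((Real.tendsto_exp_div_pow_atTop 2).comp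
      (tendsto_id.atTop_div_const (show (0 : ℝ) < 80 by norm_num))).eventually_ge_atTop (3 * 80 ^ 2)
    filter_upwards [this, eventually_gt_atTop 0] with L hL h0
    simp only [Function.comp_apply, id] at hL
    rw [le_div_iff₀ (by positivity)] at hL
    linarith
  have h2 := (tendsto_rpow_atTop (show (0 : ℝ) < 19 / 20 by norm_num)).eventually_ge_atTop 160
  filter_upwards [h1, h2, eventually_ge_atTop 4] with L a1 a2 a3
  have b1 : L ^ (1 / 20 : ℝ) * L ^ (19 / 20 : ℝ) = L := by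
    rw [← Real.rpow_add (by linarith)]; norm_num
  have b2 : 0 ≤ L ^ (1 / 20 : ℝ) := by positivity
  have b3 : Real.exp (2 * L ^ (1 / 20 : ℝ)) ≤ Real.exp (L / 80) := by
    rw [Real.exp_le_exp]; nlinarith
  have b4 : Real.exp (L / 80) ≤ Real.exp (L / 40) := by rw [Real.exp_le_exp]; linarith
  refine ⟨a3, ?_, by nlinarith⟩
  rw [show L / 40 = L / 80 + L / 80 by ring, Real.exp_add]
  exact mul_le_mul (by nlinarith) b3 (by positivity) (by positivity)

theorem riesz_exp : ∀ᶠ L : ℝ in atTop, ∀ y : ℝ, 0 < y → L ^ (39 / 20 : ℝ) / 2 ≤ Real.log y →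
    Real.log y ≤ 2 * L ^ (39 / 20 : ℝ) →
    ‖∑ n ∈ Ioc 0 ⌊y⌋₊, mc n * ((y : ℂ) - n)‖ ≤ 20 * y ^ 2 * Real.exp (-(L / 10)) := by
  filter_upwards [region, small] with L hr ⟨h4, s1, s2⟩ y hy y1 y2
  have L0 : 0 < L := by linarith
  set w := L ^ (-(19 / 20) : ℝ) with hw
  have w0 : 0 < w := by positivity
  have a1 : L ^ (39 / 20 : ℝ) * w = L := by rw [hw, ← Real.rpow_add L0]; norm_num
  have a2 : L * w = L ^ (1 / 20 : ℝ) := by
    rw [hw, ← Real.rpow_one_add' L0.le (by norm_num)]; norm_num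
  have a3 : 1 / w ≤ L := by
    rw [hw, Real.rpow_neg L0.le, one_div, inv_inv]
    simpa using Real.rpow_le_rpow_of_exponent_le (by linarith : 1 ≤ L)
      (by norm_num : (19 / 20 : ℝ) ≤ 1)
  have a4 : w ≤ 1 / 2 := by
    calc w ≤ L ^ (-(1 / 2) : ℝ) := Real.rpow_le_rpow_of_exponent_le (by linarith) (by norm_num)
      _ ≤ 4 ^ (-(1 / 2) : ℝ) := Real.rpow_le_rpow_of_nonpos (by norm_num) h4 (by norm_num)
      _ = 1 / 2 := by
        rw [show (4 : ℝ) = 2 ^ (2 : ℝ) by norm_num, ← Real.rpow_mul (by norm_num)]; norm_num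
  have a5 : L ^ (39 / 20 : ℝ) ≤ L ^ 2 := by
    exact_mod_cast Real.rpow_le_rpow_of_exponent_le (by linarith : 1 ≤ L)
      (by norm_num : (39 / 20 : ℝ) ≤ 2)
  have a6 : L / 2 ≤ Real.log y * w := by nlinarith
  have l0 : 0 < Real.log y := by nlinarith
  have hT : Real.exp (L / 8) ≤ 2 * Real.exp L := by
    have : Real.exp (L / 8) ≤ Real.exp L := by rw [Real.exp_le_exp]; linarith
    linarith [Real.exp_pos L]
  have key := riesz (K := Real.exp (L / 40)) a4 (Real.exp_pos (L / 8))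
    ((Real.log_pos_iff hy.le).1 l0) (by rw [div_le_iff₀ l0]; nlinarith) fun s k1 k2 =>
      ⟨(hr s k1 (k2.trans hT)).1, (H_le w0 L0.le hr k1 (k2.trans hT)).trans (by
        refine le_trans ?_ s1
        rw [show L * (2 * w) = 2 * (L * w) by ring, a2]
        gcongr)⟩
  refine key.trans ?_
  have c1 : Real.exp (L / 40) / Real.exp (L / 8) = Real.exp (-(L / 10)) := by
    rw [← Real.exp_sub]; congr 1; ring
  have c2 : Real.exp (L / 40) / Real.exp (L / 8) ^ 2 ≤ Real.exp (-(L / 10)) := by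
    rw [← Real.exp_nat_mul, ← Real.exp_sub, Real.exp_le_exp]; push_cast; linarith
  have c3 : Real.exp (L / 40) * Real.exp (-(Real.log y * w)) * Real.exp (L / 8) ≤
      Real.exp (-(L / 10)) := by
    rw [← Real.exp_add, ← Real.exp_add, Real.exp_le_exp]; linarith
  have c4 : (1 + Real.log y) / Real.exp (L / 8) ≤ Real.exp (-(L / 10)) := by
    rw [← c1]; gcongr; linarith
  calc _ = y ^ 2 * (6 * (Real.exp (L / 40) / Real.exp (L / 8) ^ 2) +
        8 * (Real.exp (L / 40) * Real.exp (-(Real.log y * w)) * Real.exp (L / 8)) +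
        6 * ((1 + Real.log y) / Real.exp (L / 8))) := by ring
    _ ≤ y ^ 2 * (6 * Real.exp (-(L / 10)) + 8 * Real.exp (-(L / 10)) +
        6 * Real.exp (-(L / 10))) := by gcongr
    _ = _ := by ring

theorem unsmooth (u h : ℕ) : (h : ℝ) * |∑ d ∈ Ioc 0 u, mu d| ≤
    ‖∑ n ∈ Ioc 0 (u + h), mc n * ((((u + h : ℕ) : ℝ) : ℂ) - n)‖ +
      ‖∑ n ∈ Ioc 0 u, mc n * (((u : ℝ) : ℂ) - n)‖ + h * h := by
  have e : (h : ℂ) * ((∑ d ∈ Ioc 0 u, mu d : ℝ) : ℂ) =
      ∑ n ∈ Ioc 0 (u + h), mc n * ((((u + h : ℕ) : ℝ) : ℂ) - n) -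
        ∑ n ∈ Ioc 0 u, mc n * (((u : ℝ) : ℂ) - n) -
        ∑ n ∈ Ioc u (u + h), mc n * ((((u + h : ℕ) : ℝ) : ℂ) - n) := by
    rw [← sum_Ioc_consecutive _ (Nat.zero_le u) (Nat.le_add_right u h), add_sub_right_comm,
      add_sub_cancel_right, ← sum_sub_distrib]
    push_cast
    rw [mul_sum]
    refine sum_congr rfl fun n _ => ?_
    simp only [mu, mc]
    push_cast
    ring
  have b : ‖∑ n ∈ Ioc u (u + h), mc n * ((((u + h : ℕ) : ℝ) : ℂ) - n)‖ ≤ h * h := by
    refine (norm_sum_le _ _).trans ((sum_le_card_nsmul _ _ (h : ℝ) fun n hn => ?_).trans ?_)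
    · have h1 : (u : ℝ) ≤ n := by exact_mod_cast (mem_Ioc.1 hn).1.le
      have h2 : (n : ℝ) ≤ (u + h : ℕ) := by exact_mod_cast (mem_Ioc.1 hn).2
      rw [norm_mul, ← ofReal_natCast n, ← ofReal_sub, norm_real, Real.norm_of_nonneg (by linarith)]
      have h3 : ‖mc n‖ ≤ 1 := by
        rw [mc, Complex.norm_intCast]
        exact_mod_cast abs_moebius_le_one
      push_cast at h2 ⊢
      nlinarith [norm_nonneg (mc n)]
    · simp
  have := congrArg norm e
  rw [norm_mul, norm_natCast, norm_real, Real.norm_eq_abs] at this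
  rw [this]
  linarith [norm_sub_le (∑ n ∈ Ioc 0 (u + h), mc n * ((((u + h : ℕ) : ℝ) : ℂ) - n) -
    ∑ n ∈ Ioc 0 u, mc n * (((u : ℝ) : ℂ) - n))
    (∑ n ∈ Ioc u (u + h), mc n * ((((u + h : ℕ) : ℝ) : ℂ) - n)),
    norm_sub_le (∑ n ∈ Ioc 0 (u + h), mc n * ((((u + h : ℕ) : ℝ) : ℂ) - n))
    (∑ n ∈ Ioc 0 u, mc n * (((u : ℝ) : ℂ) - n))]

/-- the scale of the saving -/
def lv (X : ℝ) : ℝ := Real.log X ^ (20 / 39 : ℝ)

theorem lv_top : Tendsto lv atTop atTop :=
  (tendsto_rpow_atTop (by norm_num)).comp Real.tendsto_log_atTop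

theorem mert : ∀ᶠ X : ℝ in atTop, ∀ u : ℕ, u ≤ ⌊X⌋₊ →
    |∑ d ∈ Ioc 0 u, mu d| ≤ 202 * X * Real.exp (-(lv X / 20)) := by
  filter_upwards [lv_top.eventually riesz_exp, eventually_ge_atTop 3,
    lv_top.eventually_ge_atTop 1] with X hr h3 l1 u hu
  have X0 : 0 < X := by linarith
  have lX : 0 < Real.log X := Real.log_pos (by linarith)
  have e : lv X ^ (39 / 20 : ℝ) = Real.log X := by
    rw [lv, ← Real.rpow_mul lX.le]; norm_num
  rw [e] at hr
  have l2 : lv X ≤ Real.log X := by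
    rw [← e]
    simpa using Real.rpow_le_rpow_of_exponent_le l1 (by norm_num : (1 : ℝ) ≤ 39 / 20)
  set E := Real.exp (-(lv X / 20)) with hE
  have E0 : 0 < E := Real.exp_pos _
  have E1 : E ≤ 1 := by rw [hE, Real.exp_le_one_iff]; linarith
  have E2 : Real.exp (-(lv X / 10)) = E ^ 2 := by
    rw [hE, ← Real.exp_nat_mul]; congr 1; push_cast; ring
  have E3 : Real.exp (Real.log X / 2) ≤ X * E := by
    have : X * E = Real.exp (Real.log X + -(lv X / 20)) := by rw [Real.exp_add, Real.exp_log X0]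
    rw [this, Real.exp_le_exp]; linarith
  have E4 : 1 ≤ X * E := (Real.one_le_exp (by linarith)).trans E3
  have uX : (u : ℝ) ≤ X := (Nat.cast_le.2 hu).trans (Nat.floor_le X0.le)
  rcases le_total (u : ℝ) (X * E) with k | k
  · refine (abs_sum_le_sum_abs _ _).trans
      ((sum_le_card_nsmul _ _ 1 fun d _ => abs_mu_le d).trans ?_)
    simp only [Nat.card_Ioc, Nat.sub_zero, nsmul_eq_mul, mul_one]
    linarith
  have u0 : (0 : ℝ) < u := by linarith
  have u1 : Real.log X / 2 ≤ Real.log u := (Real.le_log_iff_exp_le u0).2 (E3.trans k)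
  set h := ⌈X * E⌉₊ with hh
  have h1 : X * E ≤ h := Nat.le_ceil _
  have h2 : (h : ℝ) ≤ 2 * (X * E) := by
    have := Nat.ceil_lt_add_one (show 0 ≤ X * E by linarith)
    linarith
  have h4 : (u : ℝ) ≤ (u + h : ℕ) := by exact_mod_cast Nat.le_add_right u h
  have h5 : ((u + h : ℕ) : ℝ) ≤ 3 * X := by push_cast; nlinarith
  have r1 := hr u u0 u1 (by linarith [Real.log_le_log u0 uX])
  have r2 := hr (u + h : ℕ) (by linarith) (u1.trans (Real.log_le_log u0 h4)) (by
    have a := Real.log_le_log (by linarith) h5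
    rw [Real.log_mul (by norm_num) X0.ne'] at a
    linarith [Real.log_le_log (by norm_num) h3])
  rw [Nat.floor_natCast, E2] at r1 r2
  have r3 := unsmooth u h
  have r4 : 20 * (u : ℝ) ^ 2 * E ^ 2 ≤ 20 * X ^ 2 * E ^ 2 := by gcongr
  have r5 : 20 * ((u + h : ℕ) : ℝ) ^ 2 * E ^ 2 ≤ 20 * (3 * X) ^ 2 * E ^ 2 := by gcongr
  have h0 : (0 : ℝ) < h := by linarith
  refine le_of_mul_le_mul_left ?_ h0
  nlinarith

end Pool.Agent.MP_30e119_nt.Rate
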